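import Mathlib
import Pool.Agent.W242.SevenFifths

/-!
# Composite integer parts of the powers of `7/5`
-/

set_option autoImplicit false

namespace Pool.Agent.Results.MP_c6582e_nt.SevenFifths

theorem result :
    -- the question for `p = 7`, `q = 5`
    (Set.Infinite {n : ℕ | 1 < ⌊((7 : ℚ) / (5 : ℚ)) ^ n⌋₊ ∧
        ¬ Nat.Prime ⌊((7 : ℚ) / (5 : ℚ)) ^ n⌋₊}) ∧
    -- the same for the integer parts of `ξ (7/5)^n`, for every real `ξ > 0`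
    (∀ ξ : ℝ, 0 < ξ →
      Set.Infinite {n : ℕ | 1 < ⌊ξ * ((7 : ℝ) / 5) ^ n⌋₊ ∧
        ¬ Nat.Prime ⌊ξ * ((7 : ℝ) / 5) ^ n⌋₊} ∧
      Set.Infinite {n : ℕ | 1 < Nat.gcd ⌊ξ * ((7 : ℝ) / 5) ^ n⌋₊ 6006}) := by
  have key : ∀ ξ : ℝ, 0 < ξ → ∀ N : ℕ, ∃ n, N ≤ n ∧ 13 < ⌊ξ * ((7 : ℝ) / 5) ^ n⌋₊ ∧
      ∃ p : ℕ, (p = 2 ∨ p = 3 ∨ p = 7 ∨ p = 11 ∨ p = 13) ∧
        p ∣ ⌊ξ * ((7 : ℝ) / 5) ^ n⌋₊ := by
    intro ξ hξ N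
    obtain ⟨N1, hN1⟩ : ∃ N1 : ℕ, (14 : ℝ) / ξ < (7 / 5 : ℝ) ^ N1 :=
      pow_unbounded_of_one_lt _ (by norm_num)
    obtain ⟨n, hn, p, hp, hdvd⟩ :=
      Pool.Agent.W242.SevenFifths.small_factor ξ hξ (N + N1)
    have hbig : 14 < ξ * ((7 : ℝ) / 5) ^ n := by
      have h1 : (7 / 5 : ℝ) ^ N1 ≤ (7 / 5 : ℝ) ^ n :=
        pow_le_pow_right₀ (by norm_num) (by omega)
      have h2 : 14 < ξ * (7 / 5 : ℝ) ^ N1 := by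
        rw [div_lt_iff₀ hξ] at hN1
        linarith
      nlinarith
    refine ⟨n, by omega, ?_, p, hp, ?_⟩
    · have : 14 ≤ ⌊ξ * ((7 : ℝ) / 5) ^ n⌋₊ := Nat.le_floor (by push_cast; linarith)
      omega
    · have h3 : ((⌊ξ * ((7 : ℝ) / 5) ^ n⌋₊ : ℕ) : ℤ) = ⌊ξ * ((7 : ℝ) / 5) ^ n⌋ :=
        Int.natCast_floor_eq_floor (by linarith)
      rw [← h3] at hdvd
      exact_mod_cast hdvd
  have comp : ∀ ξ : ℝ, 0 < ξ →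
      Set.Infinite {n : ℕ | 1 < ⌊ξ * ((7 : ℝ) / 5) ^ n⌋₊ ∧
        ¬ Nat.Prime ⌊ξ * ((7 : ℝ) / 5) ^ n⌋₊} := by
    intro ξ hξ
    rw [Set.infinite_iff_exists_gt]
    intro N
    obtain ⟨n, hn, hbig, p, hp, hdvd⟩ := key ξ hξ (N + 1)
    refine ⟨n, ⟨by omega, ?_⟩, by omega⟩
    intro hprime
    rcases (Nat.dvd_prime hprime).mp hdvd with h | h
    · rcases hp with h1 | h1 | h1 | h1 | h1 <;> omega
    · rcases hp with h1 | h1 | h1 | h1 | h1 <;> omega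
  refine ⟨?_, ?_⟩
  · have h := comp 1 one_pos
    have heq : ∀ n : ℕ, ⌊((7 : ℚ) / (5 : ℚ)) ^ n⌋₊ = ⌊(1 : ℝ) * ((7 : ℝ) / 5) ^ n⌋₊ := by
      intro n
      have h1 : (1 : ℝ) * ((7 : ℝ) / 5) ^ n = (((((7 : ℚ) / (5 : ℚ)) ^ n : ℚ)) : ℝ) := by
        push_cast; ring
      rw [h1, ← Int.floor_toNat, ← Int.floor_toNat, Rat.floor_cast]
    simp only [heq]
    exact h
  · intro ξ hξ
    refine ⟨comp ξ hξ, ?_⟩
    rw [Set.infinite_iff_exists_gt]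
    intro N
    obtain ⟨n, hn, hbig, p, hp, hdvd⟩ := key ξ hξ (N + 1)
    refine ⟨n, ?_, by omega⟩
    have h1 : p ∣ Nat.gcd ⌊ξ * ((7 : ℝ) / 5) ^ n⌋₊ 6006 := by
      apply Nat.dvd_gcd hdvd
      rcases hp with h1 | h1 | h1 | h1 | h1 <;> subst h1 <;> norm_num
    have h2 : 0 < Nat.gcd ⌊ξ * ((7 : ℝ) / 5) ^ n⌋₊ 6006 := Nat.gcd_pos_of_pos_right _ (by norm_num)
    have h3 := Nat.le_of_dvd h2 h1
    rcases hp with h4 | h4 | h4 | h4 | h4 <;> (simp only [Set.mem_ofPred_eq]; omega)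

end Pool.Agent.Results.MP_c6582e_nt.SevenFifths
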